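import Mathlib
import Pool.Agent.W268.UB.Stm

/-!
# UB-OBL: operator valued Banach limits
-/

set_option autoImplicit false

namespace Pool.Agent.W681.UB

open MeasureTheory Complex Pool.Agent.W268.UB
open scoped ComplexConjugate InnerProductSpace

variable {K : Type} [NormedAddCommGroup K] [InnerProductSpace ℂ K]

theorem bd1 (Z : ℕ → K →L[ℂ] K) (M : ℝ) (h : ∀ n, ‖Z n‖ ≤ M) (x y : K) (n : ℕ) :
    ‖⟪Z n x, y⟫_ℂ‖ ≤ M * ‖x‖ * ‖y‖ := by
  refine (norm_inner_le_norm _ _).trans ?_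
  refine mul_le_mul_of_nonneg_right ?_ (norm_nonneg _)
  exact (Z n).le_of_opNorm_le (h n) x

theorem bd2 (Z : ℕ → K →L[ℂ] K) (M : ℝ) (h : ∀ n, ‖Z n‖ ≤ M) (x y : K) (n : ℕ) :
    ‖⟪y, Z n x⟫_ℂ‖ ≤ M * ‖x‖ * ‖y‖ := by
  rw [norm_inner_symm]
  exact bd1 Z M h x y n

theorem t_OBL : S_OBL := by
  intro Lam hL K _ _ _ Z M hM
  obtain ⟨hadd, hsmul, hbd, -, -, hconj, -⟩ := hL
  have B1 : ∀ x y : K, Bd (fun n => ⟪Z n x, y⟫_ℂ) := fun x y => ⟨_, bd1 Z M hM x y⟩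
  have B2 : ∀ x y : K, Bd (fun n => ⟪y, Z n x⟫_ℂ) := fun x y => ⟨_, bd2 Z M hM x y⟩
  have hM0 : 0 ≤ M := (norm_nonneg _).trans (hM 0)
  let f : K → K →L[ℂ] ℂ := fun x => LinearMap.mkContinuous
    { toFun := fun y => Lam (fun n => ⟪Z n x, y⟫_ℂ)
      map_add' := fun y z => by
        have h1 : (fun n => ⟪Z n x, y + z⟫_ℂ) = fun n => ⟪Z n x, y⟫_ℂ + ⟪Z n x, z⟫_ℂ := by
          funext n; exact inner_add_right _ _ _
        show Lam (fun n => ⟪Z n x, y + z⟫_ℂ) = _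
        rw [h1, hadd _ _ (B1 x y) (B1 x z)]
      map_smul' := fun c y => by
        have h1 : (fun n => ⟪Z n x, c • y⟫_ℂ) = fun n => c * ⟪Z n x, y⟫_ℂ := by
          funext n; exact inner_smul_right _ _ _
        show Lam (fun n => ⟪Z n x, c • y⟫_ℂ) = _
        rw [h1, hsmul _ _ (B1 x y)]
        rfl } (M * ‖x‖) (fun y => hbd _ _ (bd1 Z M hM x y))
  have hf : ∀ x y : K, f x y = Lam (fun n => ⟪Z n x, y⟫_ℂ) := fun x y => rfl
  have hfn : ∀ x : K, ‖f x‖ ≤ M * ‖x‖ := fun x =>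
    LinearMap.mkContinuous_norm_le _ (by positivity) _
  let P0 : K → K := fun x => (InnerProductSpace.toDual ℂ K).symm (f x)
  have hP0 : ∀ x y : K, ⟪y, P0 x⟫_ℂ = Lam (fun n => ⟪y, Z n x⟫_ℂ) := by
    intro x y
    have h1 : ⟪P0 x, y⟫_ℂ = f x y := InnerProductSpace.toDual_symm_apply
    have h2 : (fun n => ⟪y, Z n x⟫_ℂ) = fun n => conj ⟪Z n x, y⟫_ℂ := by
      funext n; exact (inner_conj_symm _ _).symm
    rw [← inner_conj_symm, h1, hf, h2, hconj _ (B1 x y)]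
  have hadd' : ∀ x x' : K, P0 (x + x') = P0 x + P0 x' := by
    intro x x'
    refine ext_inner_left ℂ (fun y => ?_)
    rw [inner_add_right, hP0, hP0, hP0, ← hadd _ _ (B2 x y) (B2 x' y)]
    congr 1
    funext n
    rw [map_add, inner_add_right]
  have hsmul' : ∀ (c : ℂ) (x : K), P0 (c • x) = c • P0 x := by
    intro c x
    refine ext_inner_left ℂ (fun y => ?_)
    rw [inner_smul_right, hP0, hP0, ← hsmul _ _ (B2 x y)]
    congr 1
    funext n
    rw [map_smul, inner_smul_right]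
  refine ⟨LinearMap.mkContinuous { toFun := P0, map_add' := hadd', map_smul' := hsmul' } M
    (fun x => ?_), LinearMap.mkContinuous_norm_le _ hM0 _, fun x y => hP0 x y⟩
  show ‖(InnerProductSpace.toDual ℂ K).symm (f x)‖ ≤ M * ‖x‖
  rw [LinearIsometryEquiv.norm_map]
  exact hfn x

end Pool.Agent.W681.UB
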